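import Pool.Agent.W325.S3.Stm
import Pool.Agent.H46R2.K3.MU

/-! # Project S3: the iteration of the exponents -/

set_option autoImplicit false

namespace Pool.Agent.W85.S3

open Pool.Agent.W325.S3 Pool.Agent.H46R2.K3

theorem c_zero : c 0 ≤ 1 := by
  classical
  unfold c
  refine (Finset.card_filter_le _ _).trans ?_
  unfold W
  refine Finset.card_image_le.trans ?_
  rw [Finset.card_univ, card_vector]
  simp

/-- from the polynomial form to real exponents -/
theorem polyPP {M y : ℕ} (hM : 1 ≤ M) (h : Poly M y) : PP (((y : ℝ) + 5) / M) := by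
  obtain ⟨C, hC⟩ := h
  have hM0 : (0 : ℝ) < M := by exact_mod_cast hM
  have hmu : (0 : ℝ) ≤ mu := zero_le_one.trans Pool.Agent.H46R2.K3.P.one_le_mu
  refine ⟨|C| * 3 ^ (y + 5), fun n => ?_⟩
  rcases Nat.eq_zero_or_pos n with rfl | hn
  · have h0 : ((0 : ℕ) : ℝ) ^ (((y : ℝ) + 5) / M) = 0 := by
      rw [Nat.cast_zero]
      exact Real.zero_rpow (by positivity)
    rw [h0, mul_zero, Real.exp_zero, pow_zero, mul_one]
    exact_mod_cast c_zero
  · have hn1 : (1 : ℝ) ≤ n := by exact_mod_cast hn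
    have hn0 : (0 : ℝ) ≤ n := by linarith
    obtain ⟨x, hx⟩ : ∃ x : ℝ, x = (n : ℝ) ^ (1 / (M : ℝ)) := ⟨_, rfl⟩
    have hx1 : 1 ≤ x := by rw [hx]; exact Real.one_le_rpow hn1 (by positivity)
    have hx0 : 0 < x := by linarith
    have h1 : x ≤ ((⌈x⌉₊ + 1 : ℕ) : ℝ) := by
      push_cast
      linarith [Nat.le_ceil x]
    have hQ2 : 2 ≤ ⌈x⌉₊ + 1 := by
      have : 0 < ⌈x⌉₊ := Nat.ceil_pos.2 hx0
      omega
    have h2 : (n : ℝ) = x ^ M := by
      rw [hx, ← Real.rpow_natCast, ← Real.rpow_mul hn0]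
      have : 1 / (M : ℝ) * (M : ℝ) = 1 := by field_simp
      rw [this, Real.rpow_one]
    have hQn : n ≤ (⌈x⌉₊ + 1) ^ M := by
      have h3 : (n : ℝ) ≤ ((⌈x⌉₊ + 1 : ℕ) : ℝ) ^ M := by
        rw [h2]
        exact pow_le_pow_left₀ hx0.le h1 _
      exact_mod_cast h3
    refine (hC _ hQ2 n hQn).trans ?_
    apply mul_le_mul_of_nonneg_left _ (by positivity)
    apply Real.exp_le_exp.2
    have hQ3 : ((⌈x⌉₊ + 1 : ℕ) : ℝ) ≤ 3 * x := by
      push_cast
      have := (Nat.ceil_lt_add_one hx0.le).le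
      linarith
    calc C * ((⌈x⌉₊ + 1 : ℕ) : ℝ) ^ (y + 5) ≤ |C| * ((⌈x⌉₊ + 1 : ℕ) : ℝ) ^ (y + 5) :=
          mul_le_mul_of_nonneg_right (le_abs_self C) (by positivity)
      _ ≤ |C| * (3 * x) ^ (y + 5) := by
          apply mul_le_mul_of_nonneg_left _ (abs_nonneg C)
          exact pow_le_pow_left₀ (by positivity) hQ3 _
      _ = |C| * 3 ^ (y + 5) * (n : ℝ) ^ (((y : ℝ) + 5) / M) := by
          rw [mul_pow, ← mul_assoc]
          congr 1
          rw [hx, ← Real.rpow_natCast, ← Real.rpow_mul hn0]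
          congr 1
          push_cast
          field_simp

theorem mono {x x' : ℝ} (hx : 0 < x) (hxx : x ≤ x') (h : PP x) : PP x' := by
  obtain ⟨K, hK⟩ := h
  have hmu : (0 : ℝ) ≤ mu := zero_le_one.trans Pool.Agent.H46R2.K3.P.one_le_mu
  refine ⟨|K|, fun n => (hK n).trans ?_⟩
  apply mul_le_mul_of_nonneg_left _ (by positivity)
  apply Real.exp_le_exp.2
  rcases Nat.eq_zero_or_pos n with rfl | hn
  · rw [Nat.cast_zero, Real.zero_rpow hx.ne', Real.zero_rpow (by linarith), mul_zero, mul_zero]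
  · have hn1 : (1 : ℝ) ≤ n := by exact_mod_cast hn
    calc K * (n : ℝ) ^ x ≤ |K| * (n : ℝ) ^ x :=
          mul_le_mul_of_nonneg_right (le_abs_self K) (by positivity)
      _ ≤ |K| * (n : ℝ) ^ x' := by
          apply mul_le_mul_of_nonneg_left _ (abs_nonneg K)
          exact Real.rpow_le_rpow_of_exponent_le hn1 hxx

theorem iter : S_ITER := by
  intro hstep hhalf ε hε
  let S : Set ℝ := {x | 1 / 3 ≤ x ∧ x ≤ 1 / 2 ∧ PP x}
  have hS0 : (1 / 2 : ℝ) ∈ S := ⟨by norm_num, le_rfl, hhalf⟩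
  have hSb : BddBelow S := ⟨1 / 3, fun x hx => hx.1⟩
  obtain ⟨r, hr⟩ : ∃ r : ℝ, r = sInf S := ⟨_, rfl⟩
  have hr1 : 1 / 3 ≤ r := by rw [hr]; exact le_csInf ⟨_, hS0⟩ fun x hx => hx.1
  have hr2 : r ≤ 1 / 2 := by rw [hr]; exact csInf_le hSb hS0
  rcases hr1.eq_or_lt with h | h
  · obtain ⟨x, hx, hxlt⟩ := exists_lt_of_csInf_lt ⟨_, hS0⟩ (show sInf S < 1 / 3 + ε by
      rw [← hr, ← h]; linarith)
    exact mono (by linarith [hx.1]) hxlt.le hx.2.2
  · exfalso
    have hT : r < 2 * r / (3 * (1 - r)) := by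
      rw [lt_div_iff₀ (by linarith)]
      nlinarith
    obtain ⟨x, hx, hxlt⟩ := exists_lt_of_csInf_lt ⟨_, hS0⟩ (hr ▸ hT)
    rw [lt_div_iff₀ (by linarith)] at hxlt
    obtain ⟨hx1, hx2, hxP⟩ := hx
    obtain ⟨f, hf⟩ : ∃ f : ℝ, f = 3 * x / (2 + 3 * x) := ⟨_, rfl⟩
    have hfr : f < r := by
      rw [hf, div_lt_iff₀ (by linarith)]
      nlinarith
    have hf37 : f ≤ 3 / 7 := by
      rw [hf, div_le_div_iff₀ (by linarith) (by norm_num)]
      linarith
    have hf0 : 0 < f := by rw [hf]; apply div_pos <;> linarith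
    obtain ⟨M0, hM0⟩ := exists_nat_gt (6 / (r - f))
    obtain ⟨M, hM⟩ : ∃ M : ℕ, M = M0 + 14 := ⟨_, rfl⟩
    have hM1 : (14 : ℝ) ≤ M := by rw [hM]; push_cast; linarith [(Nat.cast_nonneg M0 : (0 : ℝ) ≤ M0)]
    have hM2 : 6 / (r - f) < M := by rw [hM]; push_cast; linarith
    have hMp : (0 : ℝ) < M := by linarith
    rw [div_lt_iff₀ (by linarith)] at hM2
    obtain ⟨y, hy⟩ : ∃ y : ℕ, y = ⌈f * M⌉₊ := ⟨_, rfl⟩
    have hfM : 0 < f * M := by positivity
    have hy1 : 1 ≤ y := by rw [hy]; exact Nat.ceil_pos.2 hfM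
    have hy2 : f * M ≤ y := by rw [hy]; exact Nat.le_ceil _
    have hy3 : (y : ℝ) < f * M + 1 := by rw [hy]; exact Nat.ceil_lt_add_one hfM.le
    have hy4 : 2 * y ≤ M := by
      have : 2 * (y : ℝ) ≤ M := by nlinarith
      exact_mod_cast this
    have hy5 : 3 * x * M ≤ (2 + 3 * x) * y := by
      have e : 3 * x = f * (2 + 3 * x) := by
        rw [hf]
        have : (2 + 3 * x) ≠ 0 := by linarith
        field_simp
      calc 3 * x * M = (2 + 3 * x) * (f * M) := by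
            have : 3 * x * M = (f * (2 + 3 * x)) * M := by rw [← e]
            rw [this]; ring
        _ ≤ (2 + 3 * x) * y := mul_le_mul_of_nonneg_left hy2 (by linarith)
    have hP := polyPP (by omega) (hstep x hx1 hx2 hxP M y hy1 hy4 hy5)
    have hlt : ((y : ℝ) + 5) / M < r := by
      rw [div_lt_iff₀ hMp]
      nlinarith
    have hmem : max (1 / 3) (((y : ℝ) + 5) / M) ∈ S :=
      ⟨le_max_left _ _, by
        apply max_le (by norm_num)
        linarith, mono (by positivity) (le_max_right _ _) hP⟩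
    have h5 : sInf S ≤ max (1 / 3) (((y : ℝ) + 5) / M) := csInf_le hSb hmem
    rw [← hr] at h5
    have h6 : max (1 / 3) (((y : ℝ) + 5) / M) < r := max_lt h hlt
    linarith

end Pool.Agent.W85.S3
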